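import Pool.Agent.H88.MacLane

set_option autoImplicit false

namespace Pool.Agent.Results.MP_b969c4_an.Q2

open Pool.Agent.H88.MacLane

theorem result :
    (∃ (G : Set ℂ) (f : ℂ → ℂ), IsOpen G ∧ IsConnected G ∧ IsSimplyConnected G ∧
      DifferentiableOn ℂ f G ∧ (MacLaneSet G f).Nonempty ∧ ¬ IsPreconnected (MacLaneSet G f) ∧
      ¬ IsSimplyConnected (MacLaneSet G f)) ∧
    (∃ (G : Set ℂ) (f : ℂ → ℂ), IsOpen G ∧ IsConnected G ∧ IsSimplyConnected G ∧
      DifferentiableOn ℂ f G ∧ IsConnected (MacLaneSet G f) ∧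
      ¬ IsSimplyConnected (MacLaneSet G f)) := by
  have h1 : IsSimplyConnected (Metric.ball (0 : ℂ) (1 / 2)) :=
    convex_sc (convex_ball _ _) (Metric.nonempty_ball.2 (by norm_num))
  have h2 : IsSimplyConnected (Set.univ : Set ℂ) := convex_sc convex_univ Set.univ_nonempty
  refine ⟨⟨Metric.ball 0 (1 / 2), f₁, Metric.isOpen_ball, h1.isPathConnected.isConnected, h1,
    by simpa using diff1 0, ⟨_, mem1 _ (Or.inl rfl)⟩, ex1,
    fun h => ex1 h.isPathConnected.isConnected.isPreconnected⟩,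
    ⟨Set.univ, f₂, isOpen_univ, h2.isPathConnected.isConnected, h2, ?_, ex2a, ex2b⟩⟩
  unfold f₂
  fun_prop

end Pool.Agent.Results.MP_b969c4_an.Q2
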